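import Pool.Agent.H990R2.Ent.Conv

open Finset Filter Topology

namespace Pool.Agent.Results.MP_c130e3_pr.SeparationNoEquivalence

noncomputable section

variable {V : Type*} [Fintype V] [DecidableEq V]

/-- `Q` is the generator of an irreducible continuous-time Markov chain on the finite set `V`,
reversible with respect to the probability measure `π` (which is then its stationary
distribution). -/
structure IsReversibleChain (Q : Matrix V V ℝ) (π : V → ℝ) : Prop where
  offdiag : ∀ x y, x ≠ y → 0 ≤ Q x y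
  row : ∀ x, ∑ y, Q x y = 0
  irreducible : ∀ x y, Relation.ReflTransGen (fun a b => a ≠ b ∧ 0 < Q a b) x y
  pos : ∀ x, 0 < π x
  total : ∑ x, π x = 1
  reversible : ∀ x y, π x * Q x y = π y * Q y x

/-- The heat kernel `H_t = exp (t Q)`. -/
def heat (Q : Matrix V V ℝ) (t : ℝ) : Matrix V V ℝ := NormedSpace.exp (t • Q)

/-- Worst-case separation distance at time `t`: `max_x max_y (1 - H_t(x,y) / π(y))`. -/
def dSep (Q : Matrix V V ℝ) (π : V → ℝ) (t : ℝ) : ℝ :=
  ⨆ x : V, ⨆ y : V, (1 - heat Q t x y / π y)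

/-- Mixing time for the worst-case separation distance. -/
def tmix (Q : Matrix V V ℝ) (π : V → ℝ) (ε : ℝ) : ℝ := sInf {t : ℝ | 0 ≤ t ∧ dSep Q π t ≤ ε}

/-- Variance under `π`. -/
def variance (π f : V → ℝ) : ℝ := ∑ x, π x * f x ^ 2 - (∑ x, π x * f x) ^ 2

/-- Dirichlet form. -/
def dirichlet (Q : Matrix V V ℝ) (π f : V → ℝ) : ℝ :=
  (1 / 2) * ∑ x, ∑ y, π x * Q x y * (f x - f y) ^ 2

/-- Spectral gap (variational formula). -/
def gap (Q : Matrix V V ℝ) (π : V → ℝ) : ℝ :=
  sInf {r : ℝ | ∃ f : V → ℝ, variance π f ≠ 0 ∧ r = dirichlet Q π f / variance π f}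

section conditions

/-- The supremum level `M = limsup_n d_n(0)` in `[0, ∞]`. -/
def levelM (d : ℕ → ℝ → ℝ) : EReal := limsup (fun n => ((d n 0 : ℝ) : EReal)) atTop

/-- Condition (1), the product condition. -/
def Cond1 (lam t : ℕ → ℝ) : Prop := Tendsto (fun n => lam n * t n) atTop atTop

/-- Condition (2): cutoff at time `t n`. -/
def Cond2 (d : ℕ → ℝ → ℝ) (t : ℕ → ℝ) : Prop :=
  ∀ δ : ℝ, 0 < δ → δ < 1 →
    Tendsto (fun n => ((d n ((1 + δ) * t n) : ℝ) : EReal)) atTop (𝓝 0) ∧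
    Tendsto (fun n => ((d n ((1 - δ) * t n) : ℝ) : EReal)) atTop (𝓝 (levelM d))

/-- `(t n, b n)` cutoff. -/
def WindowCutoff (d : ℕ → ℝ → ℝ) (t b : ℕ → ℝ) : Prop :=
  Tendsto (fun n => b n / t n) atTop (𝓝 0) ∧
  Tendsto (fun c : ℝ => limsup (fun n => ((d n (t n + c * b n) : ℝ) : EReal)) atTop) atTop (𝓝 0) ∧
  Tendsto (fun c : ℝ => liminf (fun n => ((d n (t n + c * b n) : ℝ) : EReal)) atTop) atBot
    (𝓝 (levelM d))

/-- Condition (3): `(t n, (lam n)⁻¹)` cutoff. -/
def Cond3 (d : ℕ → ℝ → ℝ) (lam t : ℕ → ℝ) : Prop := WindowCutoff d t (fun n => (lam n)⁻¹)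

end conditions

open Pool.Agent.H990R2 Pool.Agent.H990R2.Ent

/-! ### Perturbation by the stationary matrix -/

/-- The matrix all of whose rows are `π`. -/
def Stat (π : V → ℝ) : Matrix V V ℝ := fun _ y => π y

theorem stat_pow {π : V → ℝ} (h1 : ∑ x, π x = 1) (k : ℕ) (x y : V) :
    (Stat π ^ k) x y = π y + ((1 : Matrix V V ℝ) x y - π y) * 0 ^ k := by
  have h2 : Stat π * Stat π = Stat π := by
    ext x y
    rw [Matrix.mul_apply]
    simp only [Stat]
    rw [← Finset.sum_mul, h1, one_mul]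
  have h3 : ∀ k, Stat π ^ (k + 1) = Stat π := by
    intro k
    induction k with
    | zero => rw [zero_add, pow_one]
    | succ k ih => rw [pow_succ, ih, h2]
  cases k with
  | zero => rw [pow_zero, pow_zero]; ring
  | succ k => rw [h3, zero_pow (Nat.succ_ne_zero k), mul_zero, add_zero]; rfl

theorem H_stat {π : V → ℝ} (h1 : ∑ x, π x = 1) (s : ℝ) (x y : V) :
    CT.H (Stat π) s x y = π y + ((1 : Matrix V V ℝ) x y - π y) * Real.exp (-s) := by
  have ha := (CT.poisson_hasSum s 1).mul_right (π y)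
  have hb := (CT.poisson_hasSum s 0).mul_left ((1 : Matrix V V ℝ) x y - π y)
  have hc := ha.add hb
  rw [sub_self, zero_mul, Real.exp_zero, one_mul, zero_sub, neg_one_mul] at hc
  refine (CT.H_hasSum (Stat π) s x y).unique ?_
  refine (CT.hasSum_congr1 fun k => ?_).mpr hc
  rw [stat_pow h1, one_pow]
  ring

/-- The generator `Q + δ (Π - I)`. -/
def mixQ (Q : Matrix V V ℝ) (π : V → ℝ) (δ : ℝ) : Matrix V V ℝ := Q + δ • (Stat π - 1)

theorem heat_mix {Q : Matrix V V ℝ} {π : V → ℝ} (h : IsReversibleChain Q π) (δ t : ℝ) (x y : V) :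
    heat (mixQ Q π δ) t x y =
      Real.exp (-(δ * t)) * heat Q t x y + (1 - Real.exp (-(δ * t))) * π y := by
  have hQS : Q * Stat π = 0 := by
    ext x y
    rw [Matrix.mul_apply]
    simp only [Stat]
    rw [← Finset.sum_mul, h.row, zero_mul]; rfl
  have hSQ : Stat π * Q = 0 := by
    ext x y
    rw [Matrix.mul_apply]
    simp only [Stat]
    have : ∀ z, π z * Q z y = π y * Q y z := fun z => h.reversible z y
    simp only [this]
    rw [← Finset.mul_sum, h.row, mul_zero]; rfl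
  have hcomm : Commute Q (Stat π - 1) := by
    rw [commute_iff_eq, mul_sub, sub_mul, hQS, hSQ, mul_one, one_mul]
  have e1 : t • mixQ Q π δ = t • Q + (δ * t) • (Stat π - 1) := by
    rw [mixQ, smul_add, smul_smul, mul_comm t δ]
  have e2 : heat (mixQ Q π δ) t = heat Q t * CT.H (Stat π) (δ * t) := by
    rw [heat, e1, Matrix.exp_add_of_commute]
    · rfl
    · exact ((hcomm.smul_left _).smul_right _)
  have e3 : heat Q t = CT.H (1 + Q) t := by
    rw [heat, CT.H, add_sub_cancel_left]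
  have hrow : ∀ x, ∑ y, (1 + Q) x y = 1 := by
    intro x
    simp only [Matrix.add_apply]
    rw [Finset.sum_add_distrib, h.row, add_zero]
    simp [Matrix.one_apply]
  have e4 : ∑ z, heat Q t x z = 1 := by rw [e3]; exact CT.H_row hrow t x
  rw [e2, Matrix.mul_apply]
  simp only [H_stat h.total]
  have e5 : ∀ z, heat Q t x z * (π y + ((1 : Matrix V V ℝ) z y - π y) * Real.exp (-(δ * t))) =
      heat Q t x z * ((1 - Real.exp (-(δ * t))) * π y) +
        Real.exp (-(δ * t)) * (heat Q t x z * (1 : Matrix V V ℝ) z y) := fun z => by ring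
  simp only [e5]
  rw [Finset.sum_add_distrib, ← Finset.sum_mul, e4, one_mul, ← Finset.mul_sum]
  have e6 : ∑ z, heat Q t x z * (1 : Matrix V V ℝ) z y = heat Q t x y := by
    rw [← Matrix.mul_apply, mul_one]
  rw [e6]
  ring

theorem mix_chain {Q : Matrix V V ℝ} {π : V → ℝ} (h : IsReversibleChain Q π) {δ : ℝ}
    (hδ : 0 < δ) : IsReversibleChain (mixQ Q π δ) π where
  offdiag x y hxy := by
    simp only [mixQ, Matrix.add_apply, Matrix.smul_apply, Matrix.sub_apply, smul_eq_mul, Stat,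
      Matrix.one_apply_ne hxy, sub_zero]
    have := h.offdiag x y hxy
    have := h.pos y
    positivity
  row x := by
    simp only [mixQ, Matrix.add_apply, Matrix.smul_apply, Matrix.sub_apply, smul_eq_mul, Stat]
    rw [Finset.sum_add_distrib, h.row, ← Finset.mul_sum, Finset.sum_sub_distrib, h.total]
    simp [Matrix.one_apply]
  irreducible x y := by
    by_cases hxy : x = y
    · rw [hxy]
    · refine Relation.ReflTransGen.single ⟨hxy, ?_⟩
      simp only [mixQ, Matrix.add_apply, Matrix.smul_apply, Matrix.sub_apply, smul_eq_mul, Stat,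
        Matrix.one_apply_ne hxy, sub_zero]
      have := h.offdiag x y hxy
      have := h.pos y
      positivity
  pos := h.pos
  total := h.total
  reversible x y := by
    have h1 := h.reversible x y
    have h2 : π x * (1 : Matrix V V ℝ) x y = π y * (1 : Matrix V V ℝ) y x := by
      by_cases hxy : x = y
      · rw [hxy]
      · rw [Matrix.one_apply_ne hxy, Matrix.one_apply_ne (Ne.symm hxy)]; simp
    simp only [mixQ, Matrix.add_apply, Matrix.smul_apply, Matrix.sub_apply, smul_eq_mul, Stat]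
    linear_combination h1 - δ * h2

theorem dSep_mix {Q : Matrix V V ℝ} {π : V → ℝ} (h : IsReversibleChain Q π) (δ t : ℝ) :
    dSep (mixQ Q π δ) π t = Real.exp (-(δ * t)) * dSep Q π t := by
  have e : ∀ x y, 1 - heat (mixQ Q π δ) t x y / π y =
      Real.exp (-(δ * t)) * (1 - heat Q t x y / π y) := by
    intro x y
    have := (h.pos y).ne'
    rw [heat_mix h]
    field_simp
    ring
  rw [dSep, dSep]
  simp only [e]
  rw [Real.mul_iSup_of_nonneg (Real.exp_pos _).le]
  congr 1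
  ext x
  rw [Real.mul_iSup_of_nonneg (Real.exp_pos _).le]

theorem le_dSep (Q : Matrix V V ℝ) (π : V → ℝ) (t : ℝ) (x y : V) :
    1 - heat Q t x y / π y ≤ dSep Q π t := by
  refine le_trans ?_ (le_ciSup (f := fun x => ⨆ y : V, (1 - heat Q t x y / π y))
    (Set.finite_range _).bddAbove x)
  exact le_ciSup (f := fun y => 1 - heat Q t x y / π y) (Set.finite_range _).bddAbove y

theorem dSep_le [Nonempty V] (Q : Matrix V V ℝ) (π : V → ℝ) (t C : ℝ)
    (h : ∀ x y, 1 - heat Q t x y / π y ≤ C) : dSep Q π t ≤ C :=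
  ciSup_le fun x => ciSup_le fun y => h x y

/-! ### The base chain -/

theorem heat_eq (K : ℕ) (t : ℝ) : heat (QQ K) t = CT.H (PP K) t := by
  rw [heat, CT.H, PP, add_sub_cancel_left]

theorem isChain (K : ℕ) (hK : 1 ≤ K) : IsReversibleChain (QQ K) (pp K) where
  offdiag := QQ_off K hK
  row := QQ_row K
  irreducible x y := by
    have h := irred K hK x y
    induction h with
    | refl => exact Relation.ReflTransGen.refl
    | @tail b c _ hbc ih =>
      by_cases hb : b = c
      · rw [← hb]; exact ih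
      · exact ih.tail ⟨hb, hbc⟩
  pos := pp_pos K hK
  total := pp_sum K hK
  reversible := pp_rev K hK

theorem dSep_le_one (K : ℕ) (hK : 1 ≤ K) {t : ℝ} (ht : 0 ≤ t) : dSep (QQ K) (pp K) t ≤ 1 := by
  refine dSep_le _ _ _ _ fun x y => ?_
  rw [heat_eq]
  have h1 := CT.H_nonneg (PP_nonneg K hK) ht x y
  have h2 := pp_pos K hK y
  have : 0 ≤ CT.H (PP K) t x y / pp K y := by positivity
  linarith

/-- test function -/
def ff (K : ℕ) (i : ℕ) : ℝ := if i ≤ 5 * K then (4 / 5) ^ (5 * K - i) else 1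

theorem ff_pos (K i : ℕ) : 0 < ff K i := by
  rw [ff]; split_ifs <;> positivity

theorem ff_le (K i : ℕ) : ff K i ≤ 1 := by
  rw [ff]
  split_ifs
  · exact pow_le_one₀ (by norm_num) (by norm_num)
  · exact le_rfl

theorem ff_one (K i : ℕ) (h : 5 * K ≤ i) : ff K i = 1 := by
  rw [ff]
  split_ifs with h1
  · have : 5 * K - i = 0 := by omega
    rw [this, pow_zero]
  · rfl

theorem ff_succ (K i : ℕ) (h : i < 5 * K) : ff K (i + 1) = 5 / 4 * ff K i := by
  rw [ff, ff, if_pos (by omega), if_pos (by omega)]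
  have : 5 * K - i = (5 * K - (i + 1)) + 1 := by omega
  rw [this, pow_succ]
  ring

theorem ff_pred (K i : ℕ) (h : 1 ≤ i) : ff K (i - 1) ≤ ff K i := by
  rcases Nat.lt_or_ge (i - 1) (5 * K) with h1 | h1
  · have h2 := ff_succ K (i - 1) h1
    rw [Nat.sub_add_cancel h] at h2
    have := ff_pos K (i - 1)
    linarith
  · rw [ff_one K i (by omega)]; exact ff_le K _

theorem LL_ff (K : ℕ) (hK : 1 ≤ K) (i : ℕ) (hi : i ≤ 10 * K) :
    ∑ j ∈ range (10 * K + 1), A K i j * (ff K j - ff K i) ≤ 1 / 8 * ff K i := by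
  have h0 := ff_pos K i
  rcases Nat.lt_or_ge i (5 * K) with h1 | h1
  · rw [L_eq K (ff K) i hi, if_pos (show i < 10 * K by omega), if_neg (show ¬ i = 5 * K by omega),
      if_neg (show ¬ i = 5 * K by omega), if_neg (show ¬ i = 10 * K by omega), ff_succ K i h1]
    have h2 : (if 1 ≤ i then 1 / (2 * rr K) * (ff K (i - 1) - ff K i) else 0) ≤ 0 := by
      split_ifs with h
      · have h3 := ff_pred K i h
        have h4 := rr_pos K
        exact mul_nonpos_of_nonneg_of_nonpos (by positivity) (by linarith)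
      · exact le_rfl
    linarith
  · have h2 : ∑ j ∈ range (10 * K + 1), A K i j * (ff K j - ff K i) ≤ 0 := by
      refine Finset.sum_nonpos fun j _ => ?_
      rw [ff_one K i h1]
      exact mul_nonpos_of_nonneg_of_nonpos (A_nonneg K hK i j) (by linarith [ff_le K j])
    linarith

theorem P_ff (K : ℕ) (hK : 1 ≤ K) (x : Fin (10 * K + 1)) :
    (PP K).mulVec (fun j => ff K j) x ≤ (9 / 8) * ff K x + 0 := by
  rw [PP_mulVec K (ff K)]
  have := LL_ff K hK x (by omega)
  linarith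

theorem heat_last (K : ℕ) (hK : 1 ≤ K) {t : ℝ} (ht : 0 ≤ t) :
    CT.H (PP K) t 0 (Fin.last (10 * K)) ≤ Real.exp (t / 8) * (4 / 5) ^ (5 * K) := by
  have h1 := H_super (f := fun j : Fin (10 * K + 1) => ff K j) (PP_nonneg K hK) (PP_row K)
    (by norm_num) (P_ff K hK) le_rfl (by norm_num) ht 0
  have h2 : ff K ((0 : Fin (10 * K + 1)) : ℕ) = (4 / 5) ^ (5 * K) := by
    rw [ff, if_pos (by simp)]; simp
  have h3 : CT.H (PP K) t 0 (Fin.last (10 * K)) ≤
      (CT.H (PP K) t).mulVec (fun j : Fin (10 * K + 1) => ff K j) 0 := by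
    rw [Matrix.mulVec, dotProduct]
    have h4 : CT.H (PP K) t 0 (Fin.last (10 * K)) =
        CT.H (PP K) t 0 (Fin.last (10 * K)) * ff K (Fin.last (10 * K) : Fin (10 * K + 1)) := by
      rw [ff_one K _ (by simp; omega), mul_one]
    rw [h4]
    exact Finset.single_le_sum (f := fun y : Fin (10 * K + 1) => CT.H (PP K) t 0 y * ff K y)
      (fun y _ => mul_nonneg (CT.H_nonneg (PP_nonneg K hK) ht 0 y) (ff_pos K y).le)
      (Finset.mem_univ _)
  rw [h2, add_zero] at h1
  refine h3.trans (h1.trans (le_of_eq ?_))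
  congr 2
  ring

theorem pp_last (K : ℕ) (hK : 1 ≤ K) : 1 / 2 ≤ pp K (Fin.last (10 * K)) := by
  rw [pp, Fin.val_last, ww_last K hK, le_div_iff₀ (ZZ_pos K hK)]
  have := ZZ_le K hK
  linarith

theorem exp_half_lt : Real.exp (1 / 2) ≤ 1.65 := by
  have h1 := Real.exp_one_lt_d9
  have h2 : Real.exp (1 / 2) * Real.exp (1 / 2) = Real.exp 1 := by
    rw [← Real.exp_add]; norm_num
  by_contra hlt
  push Not at hlt
  nlinarith [Real.exp_pos (1 / 2)]

/-- error -/
def eta (K : ℕ) : ℝ := 2 * (3 / 5) ^ K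

theorem dSep_ge (K : ℕ) (hK : 1 ≤ K) {t : ℝ} (ht0 : 0 ≤ t) (ht : t ≤ 4 * K) :
    1 - eta K ≤ dSep (QQ K) (pp K) t := by
  refine le_trans ?_ (le_dSep (QQ K) (pp K) t 0 (Fin.last (10 * K)))
  rw [heat_eq]
  have h1 := heat_last K hK ht0
  have h2 := pp_last K hK
  have h3 : Real.exp (t / 8) * (4 / 5) ^ (5 * K) ≤ (3 / 5) ^ K := by
    calc Real.exp (t / 8) * (4 / 5) ^ (5 * K) ≤ Real.exp ((K : ℕ) * (1 / 2)) * (4 / 5) ^ (5 * K) := by
          gcongr
          linarith
      _ = (Real.exp (1 / 2) * (4 / 5) ^ 5) ^ K := by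
          rw [Real.exp_nat_mul, mul_pow, pow_mul]
      _ ≤ (3 / 5) ^ K := by
          have := exp_half_lt
          have h0 := Real.exp_pos (1 / 2)
          apply pow_le_pow_left₀ (by positivity)
          norm_num at this ⊢
          linarith
  have h4 : CT.H (PP K) t 0 (Fin.last (10 * K)) / pp K (Fin.last (10 * K)) ≤ eta K := by
    rw [div_le_iff₀ (by linarith), eta]
    have h5 : (0 : ℝ) < (3 / 5) ^ K := by positivity
    nlinarith
  linarith

theorem dSep_zero (K : ℕ) (hK : 1 ≤ K) : dSep (QQ K) (pp K) 0 = 1 := by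
  apply le_antisymm (dSep_le_one K hK le_rfl)
  refine le_trans ?_ (le_dSep (QQ K) (pp K) 0 0 (Fin.last (10 * K)))
  rw [heat, zero_smul, NormedSpace.exp_zero, Matrix.one_apply_ne]
  · simp
  · intro h
    have := congrArg Fin.val h
    simp at this
    omega

/-! ### The counterexample -/

/-- The generator of the `n`-th chain. -/
def QM (n : ℕ) : Matrix (Fin (10 * (n + 2) ^ 2 + 1)) (Fin (10 * (n + 2) ^ 2 + 1)) ℝ :=
  mixQ (QQ ((n + 2) ^ 2)) (pp ((n + 2) ^ 2)) (1 / ((n : ℝ) + 2))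

theorem K_ge (n : ℕ) : 2 ≤ (n + 2) ^ 2 :=
  le_trans (by norm_num : 2 ≤ 2 ^ 2) (Nat.pow_le_pow_left (by omega) 2)

theorem isChain_QM (n : ℕ) : IsReversibleChain (QM n) (pp ((n + 2) ^ 2)) :=
  mix_chain (isChain _ (by have := K_ge n; omega)) (by positivity)

theorem var_nonneg (K : ℕ) (hK1 : 1 ≤ K) (f : Fin (10 * K + 1) → ℝ) : 0 ≤ variance (pp K) f := by
  have e : variance (pp K) f = ∑ x, pp K x * (f x - ∑ x, pp K x * f x) ^ 2 := by
    set m := ∑ x, pp K x * f x with hm
    have : ∀ x, pp K x * (f x - m) ^ 2 = pp K x * f x ^ 2 - 2 * m * (pp K x * f x) +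
        m ^ 2 * pp K x := fun x => by ring
    simp only [this]
    rw [Finset.sum_add_distrib, Finset.sum_sub_distrib, ← Finset.mul_sum, ← Finset.mul_sum,
      pp_sum K hK1, ← hm, variance, ← hm]
    ring
  rw [e]
  exact Finset.sum_nonneg fun x _ => mul_nonneg (pp_pos K hK1 x).le (sq_nonneg _)

theorem dirichlet_mix_ge (K : ℕ) (hK : 1 ≤ K) {δ : ℝ} (hδ : 0 ≤ δ)
    (f : Fin (10 * K + 1) → ℝ) :
    dirichlet (QQ K) (pp K) f ≤ dirichlet (mixQ (QQ K) (pp K) δ) (pp K) f := by
  rw [dirichlet, dirichlet]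
  refine mul_le_mul_of_nonneg_left ?_ (by norm_num)
  refine Finset.sum_le_sum fun x _ => Finset.sum_le_sum fun y _ => ?_
  by_cases hxy : x = y
  · rw [hxy, sub_self]; simp
  · refine mul_le_mul_of_nonneg_right ?_ (sq_nonneg _)
    refine mul_le_mul_of_nonneg_left ?_ (pp_pos K hK x).le
    simp only [mixQ, Matrix.add_apply, Matrix.smul_apply, Matrix.sub_apply, smul_eq_mul, Stat,
      Matrix.one_apply_ne hxy, sub_zero]
    have := pp_pos K hK y
    have : 0 ≤ δ * pp K y := by positivity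
    linarith

theorem gap_ge (K : ℕ) (hK : 2 ≤ K) {δ : ℝ} (hδ : 0 ≤ δ) :
    1 / 20 ≤ gap (mixQ (QQ K) (pp K) δ) (pp K) := by
  have hK1 : 1 ≤ K := by omega
  have hvar := var_nonneg K hK1
  rw [gap]
  apply le_csInf
  · set f : Fin (10 * K + 1) → ℝ := Pi.single 0 1 with hf
    refine ⟨_, f, ?_, rfl⟩
    have h1 : variance (pp K) f = pp K 0 - pp K 0 ^ 2 := by
      rw [variance, hf]
      have e1 : ∀ x, pp K x * (Pi.single 0 1 : Fin (10 * K + 1) → ℝ) x ^ 2 =
          if x = 0 then pp K 0 else 0 := by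
        intro x
        rw [Pi.single_apply]
        split_ifs with h
        · rw [h]; ring
        · ring
      have e2 : ∀ x, pp K x * (Pi.single 0 1 : Fin (10 * K + 1) → ℝ) x =
          if x = 0 then pp K 0 else 0 := by
        intro x
        rw [Pi.single_apply]
        split_ifs with h
        · rw [h]; ring
        · ring
      simp only [e1, e2]
      simp
    rw [h1]
    have h2 := pp_pos K hK1 0
    have h3 : pp K 0 < 1 := by
      have h4 := pp_sum K hK1
      have h5 : (0 : Fin (10 * K + 1)) ≠ Fin.last (10 * K) := by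
        intro h
        have := congrArg Fin.val h
        simp at this
        omega
      have h6 : pp K 0 + pp K (Fin.last (10 * K)) ≤ ∑ i, pp K i := by
        rw [← Finset.sum_pair h5]
        exact Finset.sum_le_sum_of_subset_of_nonneg (Finset.subset_univ _)
          fun i _ _ => (pp_pos K hK1 i).le
      have := pp_pos K hK1 (Fin.last (10 * K))
      linarith
    nlinarith
  · rintro r ⟨f, hf, rfl⟩
    have h1 := gap_low K hK f
    have h2 : 0 < variance (pp K) f := lt_of_le_of_ne (hvar f) hf.symm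
    rw [le_div_iff₀ h2]
    exact h1.trans (dirichlet_mix_ge K hK1 hδ f)

theorem d_eq (n : ℕ) (t : ℝ) : dSep (QM n) (pp ((n + 2) ^ 2)) t =
    Real.exp (-(t / ((n : ℝ) + 2))) * dSep (QQ ((n + 2) ^ 2)) (pp ((n + 2) ^ 2)) t := by
  rw [QM, dSep_mix (isChain _ (by have := K_ge n; omega))]
  congr 3
  ring

theorem d_le (n : ℕ) {t : ℝ} (ht : 0 ≤ t) :
    dSep (QM n) (pp ((n + 2) ^ 2)) t ≤ Real.exp (-(t / ((n : ℝ) + 2))) := by
  rw [d_eq]
  have h1 := dSep_le_one ((n + 2) ^ 2) (by have := K_ge n; omega) ht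
  have h2 := Real.exp_pos (-(t / ((n : ℝ) + 2)))
  nlinarith

theorem d_ge (n : ℕ) {t : ℝ} (ht0 : 0 ≤ t) (ht : t ≤ 4 * ((n : ℝ) + 2) ^ 2) :
    (1 - eta ((n + 2) ^ 2)) * Real.exp (-(t / ((n : ℝ) + 2))) ≤
      dSep (QM n) (pp ((n + 2) ^ 2)) t := by
  rw [d_eq]
  have h1 := dSep_ge ((n + 2) ^ 2) (by have := K_ge n; omega) ht0 (by push_cast; exact ht)
  have h2 := Real.exp_pos (-(t / ((n : ℝ) + 2)))
  nlinarith

theorem eta_tendsto : Tendsto (fun n : ℕ => eta ((n + 2) ^ 2)) atTop (𝓝 0) := by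
  have h1 : Tendsto (fun n : ℕ => (n + 2) ^ 2) atTop atTop := by
    refine tendsto_atTop_mono (f := fun n : ℕ => n) (fun n => ?_) tendsto_id
    nlinarith
  have h2 := (tendsto_pow_atTop_nhds_zero_of_lt_one (r := (3 / 5 : ℝ)) (by norm_num)
    (by norm_num)).const_mul 2
  rw [mul_zero] at h2
  exact h2.comp h1

/-- lower bound for the mixing time -/
theorem tmix_ge_ev (ε : ℝ) (hε0 : 0 < ε) (hε1 : ε < 1) :
    ∀ᶠ n : ℕ in atTop, ((n : ℝ) + 2) * (Real.log (1 / ε) / 2) ≤
      tmix (QM n) (pp ((n + 2) ^ 2)) ε := by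
  set L := Real.log (1 / ε) with hL
  have hL0 : 0 < L := Real.log_pos (by rw [lt_div_iff₀ hε0]; linarith)
  have hexpL : Real.exp (-L) = ε := by
    rw [hL, Real.exp_neg, Real.exp_log (by positivity)]; simp
  -- choose the error small
  have hr : Real.exp (-L / 2) < 1 := Real.exp_zero ▸ Real.exp_lt_exp.mpr (by linarith)
  have hev : ∀ᶠ n : ℕ in atTop, eta ((n + 2) ^ 2) < 1 - Real.exp (-L / 2) :=
    eta_tendsto.eventually (gt_mem_nhds (by linarith))
  have hbig : ∀ᶠ n : ℕ in atTop, L / 2 ≤ 4 * ((n : ℝ) + 2) := by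
    have h1 : Tendsto (fun n : ℕ => (n : ℝ)) atTop atTop := tendsto_natCast_atTop_atTop
    filter_upwards [h1.eventually (eventually_ge_atTop (L / 2))] with n hn
    have : (0 : ℝ) ≤ n := Nat.cast_nonneg n
    linarith
  filter_upwards [hev, hbig] with n h1 h2
  have hn : (0 : ℝ) < (n : ℝ) + 2 := by positivity
  rw [tmix]
  apply le_csInf
  · refine ⟨((n : ℝ) + 2) * L, by positivity, ?_⟩
    refine (d_le n (by positivity)).trans (le_of_eq ?_)
    rw [mul_div_cancel_left₀ _ hn.ne', hexpL]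
  · rintro t ⟨ht0, ht⟩
    by_contra hlt
    push Not at hlt
    have h3 : t ≤ 4 * ((n : ℝ) + 2) ^ 2 := by nlinarith
    have h4 := d_ge n ht0 h3
    have h5 : t / ((n : ℝ) + 2) ≤ L / 2 := by
      rw [div_le_iff₀ hn]; linarith
    have h6 : Real.exp (-(L / 2)) ≤ Real.exp (-(t / ((n : ℝ) + 2))) :=
      Real.exp_le_exp.mpr (by linarith)
    have h7 : Real.exp (-L / 2) * Real.exp (-(L / 2)) = ε := by
      rw [← Real.exp_add, ← hexpL]; congr 1; ring
    have h8 : Real.exp (-L / 2) < 1 - eta ((n + 2) ^ 2) := by linarith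
    have h9 := Real.exp_pos (-(L / 2))
    have h10 := Real.exp_pos (-L / 2)
    have h11 : Real.exp (-L / 2) * Real.exp (-(L / 2)) <
        (1 - eta ((n + 2) ^ 2)) * Real.exp (-(L / 2)) := mul_lt_mul_of_pos_right h8 h9
    have h12 : (1 - eta ((n + 2) ^ 2)) * Real.exp (-(L / 2)) ≤
        (1 - eta ((n + 2) ^ 2)) * Real.exp (-(t / ((n : ℝ) + 2))) :=
      mul_le_mul_of_nonneg_left h6 (by linarith)
    linarith

/-- Disproof of Q1: a family of irreducible reversible chains with spectral gap bounded below and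
`M = 1`, such that for every `ε ∈ (0,1)` condition (1) holds but (2) and (3) fail for the
worst-case separation distance. -/
theorem result :
    ∃ (N : ℕ → ℕ) (Q : ∀ n, Matrix (Fin (N n + 1)) (Fin (N n + 1)) ℝ)
      (π : ∀ n, Fin (N n + 1) → ℝ),
      (∀ n, IsReversibleChain (Q n) (π n)) ∧
      (∀ n, 1 / 20 ≤ gap (Q n) (π n)) ∧
      levelM (fun n => dSep (Q n) (π n)) = 1 ∧
      ∀ ε : ℝ, 0 < ε → ε < 1 →
        Cond1 (fun n => gap (Q n) (π n)) (fun n => tmix (Q n) (π n) ε) ∧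
        ¬ Cond2 (fun n => dSep (Q n) (π n)) (fun n => tmix (Q n) (π n) ε) ∧
        ¬ Cond3 (fun n => dSep (Q n) (π n)) (fun n => gap (Q n) (π n))
            (fun n => tmix (Q n) (π n) ε) := by
  have hM : levelM (fun n => dSep (QM n) (pp ((n + 2) ^ 2))) = 1 := by
    rw [levelM]
    have : ∀ n : ℕ, ((dSep (QM n) (pp ((n + 2) ^ 2)) 0 : ℝ) : EReal) = 1 := by
      intro n
      rw [d_eq, dSep_zero _ (by have := K_ge n; omega)]
      simp
    simp only [this]
    exact limsup_const _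
  have hgap : ∀ n : ℕ, 1 / 20 ≤ gap (QM n) (pp ((n + 2) ^ 2)) := fun n =>
    gap_ge _ (K_ge n) (by positivity)
  refine ⟨fun n => 10 * (n + 2) ^ 2, QM, fun n => pp ((n + 2) ^ 2), isChain_QM, hgap, hM,
    fun ε hε0 hε1 => ?_⟩
  have htm := tmix_ge_ev ε hε0 hε1
  set L := Real.log (1 / ε) with hL
  have hL0 : 0 < L := Real.log_pos (by rw [lt_div_iff₀ hε0]; linarith)
  have hinf : Tendsto (fun n : ℕ => ((n : ℝ) + 2) * (L / 2)) atTop atTop :=
    (tendsto_atTop_add_const_right _ _ tendsto_natCast_atTop_atTop).atTop_mul_const (by positivity)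
  have hlt : Real.exp (-(L / 4)) < 1 := Real.exp_zero ▸ Real.exp_lt_exp.mpr (by linarith)
  have hdl : ∀ n : ℕ, ∀ t : ℝ, ((n : ℝ) + 2) * (L / 4) ≤ t →
      dSep (QM n) (pp ((n + 2) ^ 2)) t ≤ Real.exp (-(L / 4)) := by
    intro n t ht
    have hn : (0 : ℝ) < (n : ℝ) + 2 := by positivity
    have ht0 : 0 ≤ t := le_trans (by positivity) ht
    refine (d_le n ht0).trans (Real.exp_le_exp.mpr (neg_le_neg ?_))
    rw [le_div_iff₀ hn]
    linarith
  refine ⟨?_, ?_, ?_⟩
  · refine tendsto_atTop_mono' atTop (f₁ := fun n : ℕ => (1 / 20 : ℝ) * (((n : ℝ) + 2) * (L / 2)))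
      ?_ (hinf.const_mul_atTop (by norm_num))
    filter_upwards [htm] with n hn
    have hg := hgap n
    have h0 : (0 : ℝ) ≤ ((n : ℝ) + 2) * (L / 2) := by positivity
    exact mul_le_mul hg hn h0 (by linarith)
  · intro hc
    have h2 := (hc (1 / 2) (by norm_num) (by norm_num)).2
    rw [hM] at h2
    have h3 := h2.eventually (lt_mem_nhds
      (show ((Real.exp (-(L / 4)) : ℝ) : EReal) < 1 by exact_mod_cast hlt))
    obtain ⟨n, hn1, hn2⟩ := (h3.and htm).exists
    have h4 := hdl n ((1 - 1 / 2) * tmix (QM n) (pp ((n + 2) ^ 2)) ε) (by linarith)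
    have h5 := EReal.coe_lt_coe_iff.mp hn1
    linarith
  · intro hc
    have h2 := hc.2.2
    rw [hM] at h2
    have h3 := h2.eventually (lt_mem_nhds
      (show ((Real.exp (-(L / 4)) : ℝ) : EReal) < 1 by exact_mod_cast hlt))
    obtain ⟨c, hc1⟩ := h3.exists
    have h4 : ∀ᶠ n : ℕ in atTop, ((dSep (QM n) (pp ((n + 2) ^ 2))
        (tmix (QM n) (pp ((n + 2) ^ 2)) ε + c * (gap (QM n) (pp ((n + 2) ^ 2)))⁻¹) : ℝ) : EReal) ≤
        ((Real.exp (-(L / 4)) : ℝ) : EReal) := by
      filter_upwards [htm, hinf.eventually (eventually_ge_atTop (40 * |c|))] with n h5 h7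
      rw [EReal.coe_le_coe_iff]
      apply hdl
      have hg := hgap n
      have h8 : (gap (QM n) (pp ((n + 2) ^ 2)))⁻¹ ≤ 20 := by
        rw [inv_le_comm₀ (by linarith) (by norm_num)]
        linarith
      have h9 : 0 < (gap (QM n) (pp ((n + 2) ^ 2)))⁻¹ := by
        apply inv_pos.mpr; linarith
      have h10 : -(20 * |c|) ≤ c * (gap (QM n) (pp ((n + 2) ^ 2)))⁻¹ := by
        have h11 := neg_abs_le c
        have h12 := abs_nonneg c
        nlinarith
      linarith
    have h5 : liminf (fun n : ℕ => ((dSep (QM n) (pp ((n + 2) ^ 2))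
        (tmix (QM n) (pp ((n + 2) ^ 2)) ε + c * (gap (QM n) (pp ((n + 2) ^ 2)))⁻¹) : ℝ) : EReal))
        atTop ≤ ((Real.exp (-(L / 4)) : ℝ) : EReal) := by
      refine (liminf_le_liminf h4).trans ?_
      exact le_of_eq (Filter.liminf_const _)
    exact absurd h5 (not_le.mpr hc1)

end

end Pool.Agent.Results.MP_c130e3_pr.SeparationNoEquivalence
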